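import Pool.Agent.helper68.SF.SpecW

/-!
# BS: calculus of the partial derivatives of a smooth function of `(s, x, y)`, `y > 0`
-/

namespace SF

open Pool.Agent.helper72.Sq
open scoped ContDiff

/-- the function of the triple -/
def BS_un (f : ℝ → ℝ → ℝ → ℝ) (p : ℝ × ℝ × ℝ) : ℝ := f p.1 p.2.1 p.2.2

theorem BS_open : IsOpen {p : ℝ × ℝ × ℝ | 0 < p.2.2} :=
  isOpen_lt continuous_const (continuous_snd.comp continuous_snd)

theorem BS_fd {f : ℝ → ℝ → ℝ → ℝ} (hf : Sm f) {s x y : ℝ} (hy : 0 < y) :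
    HasFDerivAt (BS_un f) (fderiv ℝ (BS_un f) (s, x, y)) (s, x, y) := by
  have h1 : ContDiffOn ℝ ∞ (BS_un f) {p : ℝ × ℝ × ℝ | 0 < p.2.2} := hf
  have h2 : ContDiffAt ℝ ∞ (BS_un f) (s, x, y) := h1.contDiffAt (BS_open.mem_nhds hy)
  exact (h2.differentiableAt (by simp)).hasFDerivAt

theorem BS_s {f : ℝ → ℝ → ℝ → ℝ} (hf : Sm f) {s x y : ℝ} (hy : 0 < y) :
    HasDerivAt (fun t => f t x y) (fderiv ℝ (BS_un f) (s, x, y) (1, 0, 0)) s := by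
  have hc : HasDerivAt (fun t : ℝ => ((t, x, y) : ℝ × ℝ × ℝ)) (1, 0, 0) s :=
    (hasDerivAt_id s).prodMk (hasDerivAt_const s (x, y))
  exact (BS_fd (x := x) hf hy).comp_hasDerivAt s hc

theorem BS_x {f : ℝ → ℝ → ℝ → ℝ} (hf : Sm f) {s x y : ℝ} (hy : 0 < y) :
    HasDerivAt (fun t => f s t y) (fderiv ℝ (BS_un f) (s, x, y) (0, 1, 0)) x := by
  have hc : HasDerivAt (fun t : ℝ => ((s, t, y) : ℝ × ℝ × ℝ)) (0, 1, 0) x :=
    (hasDerivAt_const x s).prodMk ((hasDerivAt_id x).prodMk (hasDerivAt_const x y))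
  exact (BS_fd (s := s) hf hy).comp_hasDerivAt x hc

theorem BS_y {f : ℝ → ℝ → ℝ → ℝ} (hf : Sm f) {s x y : ℝ} (hy : 0 < y) :
    HasDerivAt (fun t => f s x t) (fderiv ℝ (BS_un f) (s, x, y) (0, 0, 1)) y := by
  have hc : HasDerivAt (fun t : ℝ => ((s, x, t) : ℝ × ℝ × ℝ)) (0, 0, 1) y :=
    (hasDerivAt_const y s).prodMk ((hasDerivAt_const y x).prodMk (hasDerivAt_id y))
  exact (BS_fd (s := s) (x := x) hf hy).comp_hasDerivAt y hc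

theorem BS_sm {f : ℝ → ℝ → ℝ → ℝ} (hf : Sm f) (v : ℝ × ℝ × ℝ) :
    ContDiffOn ℝ ∞ (fun p => fderiv ℝ (BS_un f) p v) {p : ℝ × ℝ × ℝ | 0 < p.2.2} := by
  have h1 : ContDiffOn ℝ ∞ (BS_un f) {p : ℝ × ℝ × ℝ | 0 < p.2.2} := hf
  have h2 : ContDiffOn ℝ ∞ (fderiv ℝ (BS_un f)) {p : ℝ × ℝ × ℝ | 0 < p.2.2} :=
    h1.fderiv_of_isOpen BS_open (by simp)
  exact h2.clm_apply contDiffOn_const

/-- the second derivative, if `g` is the derivative of `f` in the direction `v` -/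
theorem BS_snd {f g : ℝ → ℝ → ℝ → ℝ} (hf : Sm f) (v : ℝ × ℝ × ℝ)
    (hg : ∀ p : ℝ × ℝ × ℝ, 0 < p.2.2 → BS_un g p = fderiv ℝ (BS_un f) p v) (w p : ℝ × ℝ × ℝ)
    (hp : 0 < p.2.2) : fderiv ℝ (BS_un g) p w = fderiv ℝ (fderiv ℝ (BS_un f)) p w v := by
  have h1 : ContDiffOn ℝ ∞ (BS_un f) {p : ℝ × ℝ × ℝ | 0 < p.2.2} := hf
  have h2 : ContDiffOn ℝ ∞ (fderiv ℝ (BS_un f)) {p : ℝ × ℝ × ℝ | 0 < p.2.2} :=
    h1.fderiv_of_isOpen BS_open (by simp)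
  have h3 : DifferentiableAt ℝ (fderiv ℝ (BS_un f)) p :=
    (h2.contDiffAt (BS_open.mem_nhds hp)).differentiableAt (by simp)
  have h4 : BS_un g =ᶠ[nhds p] fun q => fderiv ℝ (BS_un f) q v :=
    Filter.eventually_of_mem (BS_open.mem_nhds hp) fun q hq => hg q hq
  rw [h4.fderiv_eq]
  have h5 := h3.hasFDerivAt.clm_apply (hasFDerivAt_const v p)
  rw [h5.fderiv]
  simp

theorem BS_sym {f : ℝ → ℝ → ℝ → ℝ} (hf : Sm f) (v w p : ℝ × ℝ × ℝ) (hp : 0 < p.2.2) :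
    fderiv ℝ (fderiv ℝ (BS_un f)) p w v = fderiv ℝ (fderiv ℝ (BS_un f)) p v w := by
  have h1 : ContDiffOn ℝ ∞ (BS_un f) {p : ℝ × ℝ × ℝ | 0 < p.2.2} := hf
  have h2 : ContDiffAt ℝ ∞ (BS_un f) p := h1.contDiffAt (BS_open.mem_nhds hp)
  exact (h2.isSymmSndFDerivAt (by
    rw [minSmoothness_of_isRCLikeNormedField]
    exact WithTop.coe_le_coe.2 (le_top : (2 : ℕ∞) ≤ ⊤))) w v

theorem BS : BS_stmt := by
  intro f hf
  have eS : ∀ p : ℝ × ℝ × ℝ, 0 < p.2.2 → BS_un (dS f) p = fderiv ℝ (BS_un f) p (1, 0, 0) :=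
    fun p hp => (BS_s (s := p.1) (x := p.2.1) hf hp).deriv
  have eX : ∀ p : ℝ × ℝ × ℝ, 0 < p.2.2 → BS_un (dX f) p = fderiv ℝ (BS_un f) p (0, 1, 0) :=
    fun p hp => (BS_x (s := p.1) (x := p.2.1) hf hp).deriv
  have eY : ∀ p : ℝ × ℝ × ℝ, 0 < p.2.2 → BS_un (dY f) p = fderiv ℝ (BS_un f) p (0, 0, 1) :=
    fun p hp => (BS_y (s := p.1) (x := p.2.1) hf hp).deriv
  have sS : Sm (dS f) := (BS_sm hf (1, 0, 0)).congr fun p hp => eS p hp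
  have sX : Sm (dX f) := (BS_sm hf (0, 1, 0)).congr fun p hp => eX p hp
  have sY : Sm (dY f) := (BS_sm hf (0, 0, 1)).congr fun p hp => eY p hp
  refine ⟨sS, sX, sY, fun s x y hy => ?_⟩
  refine ⟨(BS_s hf hy).differentiableAt.hasDerivAt, (BS_x hf hy).differentiableAt.hasDerivAt,
    (BS_y hf hy).differentiableAt.hasDerivAt, ?_, ?_, ?_⟩
  · have a1 : dS (dX f) s x y = fderiv ℝ (BS_un (dX f)) (s, x, y) (1, 0, 0) := (BS_s sX hy).deriv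
    have a2 : dX (dS f) s x y = fderiv ℝ (BS_un (dS f)) (s, x, y) (0, 1, 0) := (BS_x sS hy).deriv
    rw [a1, a2, BS_snd hf (0, 1, 0) eX _ _ hy, BS_snd hf (1, 0, 0) eS _ _ hy, BS_sym hf _ _ _ hy]
  · have a1 : dS (dY f) s x y = fderiv ℝ (BS_un (dY f)) (s, x, y) (1, 0, 0) := (BS_s sY hy).deriv
    have a2 : dY (dS f) s x y = fderiv ℝ (BS_un (dS f)) (s, x, y) (0, 0, 1) := (BS_y sS hy).deriv
    rw [a1, a2, BS_snd hf (0, 0, 1) eY _ _ hy, BS_snd hf (1, 0, 0) eS _ _ hy, BS_sym hf _ _ _ hy]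
  · have a1 : dX (dY f) s x y = fderiv ℝ (BS_un (dY f)) (s, x, y) (0, 1, 0) := (BS_x sY hy).deriv
    have a2 : dY (dX f) s x y = fderiv ℝ (BS_un (dX f)) (s, x, y) (0, 0, 1) := (BS_y sX hy).deriv
    rw [a1, a2, BS_snd hf (0, 0, 1) eY _ _ hy, BS_snd hf (0, 1, 0) eX _ _ hy, BS_sym hf _ _ _ hy]

end SF
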