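import Pool.Agent.helper68.SF.SpecJ

/-!
# J3: scaling of the cone function
-/

namespace SF

open MeasureTheory Set

theorem J3_qq (h l l' y : ℝ) :
    qq (Real.exp (-h) * l) (Real.exp (-h) * l') y = Real.exp (-h) ^ 2 * qq l l' y := by
  unfold qq
  ring

theorem J3_pos (l l' y : ℝ) (hl : 0 < l) (_hl' : 0 < l') (hy : 0 < y) : 0 < qq l l' y := by
  unfold qq
  positivity

theorem J3 : J3_stmt := by
  intro f h l l' hl hl'
  unfold jf
  rw [← mul_assoc, mul_comm (Real.exp (-h)) (1 / 2), mul_assoc, ← integral_const_mul]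
  refine congrArg (fun z => 1 / 2 * z) ?_
  refine setIntegral_congr_fun measurableSet_Ioi fun y hy => ?_
  have hq : 0 < qq l l' y := J3_pos l l' y hl hl' hy
  have he : 0 < Real.exp (-h) := Real.exp_pos _
  have h1 : √(Real.exp (-h) ^ 2 * qq l l' y) = Real.exp (-h) * √(qq l l' y) := by
    rw [Real.sqrt_mul (by positivity), Real.sqrt_sq he.le]
  have h2 : Real.log (Real.exp (-h) ^ 2 * qq l l' y) = -2 * h + Real.log (qq l l' y) := by
    rw [Real.log_mul (by positivity) hq.ne', Real.log_pow, Real.log_exp]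
    push_cast
    ring
  have hs : √(qq l l' y) ≠ 0 := (Real.sqrt_pos.2 hq).ne'
  show Real.exp (-h) * (1 / √(qq (Real.exp (-h) * l) (Real.exp (-h) * l') y) *
    f (-(1 / 2) * Real.log (qq (Real.exp (-h) * l) (Real.exp (-h) * l') y)) y) =
    1 / √(qq l l' y) * f (-(1 / 2) * Real.log (qq l l' y) + h) y
  rw [J3_qq, h1, h2]
  have h3 : -(1 / 2) * (-2 * h + Real.log (qq l l' y)) = -(1 / 2) * Real.log (qq l l' y) + h := by
    ring
  rw [h3]
  field_simp

end SF
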